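import Pool.Agent.Y150.CD.Stm

/-!
# Project CD (helper150), step VAL: the value group of a prime of the algebraic integers
-/

set_option autoImplicit false

namespace Pool.Agent.Y708.CD

open Pool.Agent.Y150.CD NumberField

/-- The statement in a Dedekind domain. -/
theorem dedekind {R : Type*} [CommRing R] [IsDedekindDomain R] {q : Ideal R}
    [hq : q.IsPrime] {p : R} (hp0 : p ≠ 0) (hp : p ∈ q) {a b : R} (ha : a ≠ 0) (hb : b ≠ 0) :
    ∃ (e i j : ℕ) (r s : R), 0 < e ∧ r ∉ q ∧ s ∉ q ∧
      a ^ e * p ^ j * r = p ^ i * b ^ e * s := by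
  have hq0 : q ≠ ⊥ := by
    rintro rfl
    exact hp0 (Ideal.mem_bot.1 hp)
  let A := Localization.AtPrime q
  have : IsDiscreteValuationRing A :=
    IsLocalization.AtPrime.isDiscreteValuationRing_of_dedekind_domain R hq0 A
  have hinj : Function.Injective (algebraMap R A) :=
    IsLocalization.injective A q.primeCompl_le_nonZeroDivisors
  have hne : ∀ {x : R}, x ≠ 0 → algebraMap R A x ≠ 0 := by
    intro x hx h
    exact hx (hinj (by rw [h, map_zero]))
  obtain ⟨ϖ, hϖ⟩ := IsDiscreteValuationRing.exists_irreducible A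
  obtain ⟨i, u, hu⟩ := IsDiscreteValuationRing.eq_unit_mul_pow_irreducible (hne ha) hϖ
  obtain ⟨j, u', hu'⟩ := IsDiscreteValuationRing.eq_unit_mul_pow_irreducible (hne hb) hϖ
  obtain ⟨e, w, hw⟩ := IsDiscreteValuationRing.eq_unit_mul_pow_irreducible (hne hp0) hϖ
  have he : 0 < e := by
    rcases Nat.eq_zero_or_pos e with h | h
    · exfalso
      rw [h, pow_zero, mul_one] at hw
      have h1 : IsUnit (algebraMap R A p) := by rw [hw]; exact w.isUnit
      rw [IsLocalization.AtPrime.isUnit_to_map_iff A q] at h1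
      exact h1 hp
    · exact h
  let T : Aˣ := w ^ i * u' ^ e * (w ^ j * u ^ e)⁻¹
  have hT : (T : A) * ((w : A) ^ j * (u : A) ^ e) = (w : A) ^ i * (u' : A) ^ e := by
    have h1 : T * (w ^ j * u ^ e) = w ^ i * u' ^ e := by
      simp only [T]
      group
    have h2 := congrArg (fun z : Aˣ => (z : A)) h1
    simpa using h2
  obtain ⟨⟨r, s⟩, hrs⟩ := IsLocalization.mk'_surjective q.primeCompl (T : A)
  have hrs' : (T : A) * algebraMap R A s = algebraMap R A r := by
    have h0 : IsLocalization.mk' A r s = (T : A) := hrs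
    rw [← h0]
    exact IsLocalization.mk'_spec A r s
  have hs : (s : R) ∉ q := s.2
  have hr : r ∉ q := by
    have h1 : IsUnit (algebraMap R A (s : R)) := IsLocalization.map_units A s
    have h2 : IsUnit (algebraMap R A r) := by
      rw [← hrs']
      exact T.isUnit.mul h1
    rw [IsLocalization.AtPrime.isUnit_to_map_iff A q] at h2
    exact h2
  refine ⟨e, i, j, r, s, he, hr, hs, hinj ?_⟩
  simp only [map_mul, map_pow]
  rw [hu, hu', hw, ← hrs']
  linear_combination (ϖ ^ (i * e + e * j) * algebraMap R A (s : R)) * hT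

theorem val : S_val := by
  intro p hp P hP x hx
  have := hP.1
  have hxint : IsIntegral ℚ x := by
    have h1 : Algebra.IsAlgebraic ℚ (AlgebraicClosure ℚ) := AlgebraicClosure.isAlgebraic ℚ
    have h2 : IsAlgebraic ℚ x := h1.isAlgebraic x
    exact h2.isIntegral
  let k := IntermediateField.adjoin ℚ {x}
  have : FiniteDimensional ℚ k := IntermediateField.adjoin.finiteDimensional hxint
  have : NumberField k := ⟨⟩
  let x' : k := ⟨x, IntermediateField.mem_adjoin_simple_self ℚ x⟩
  have hx' : x' ≠ 0 := by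
    intro h
    exact hx (congrArg Subtype.val h)
  let f : 𝓞 k →+* Qb := (algebraMap k Qb).comp (algebraMap (𝓞 k) k)
  have hf : ∀ r, f r ∈ integralClosure ℤ Qb := by
    intro r
    exact (RingOfIntegers.isIntegral_coe r).map (algebraMap k Qb).toIntAlgHom
  let ι : 𝓞 k →+* O := f.codRestrict (integralClosure ℤ Qb) hf
  have hι : ∀ r, ((ι r : O) : Qb) = algebraMap k Qb (algebraMap (𝓞 k) k r) := fun r => rfl
  let q : Ideal (𝓞 k) := P.comap ι
  have : q.IsPrime := Ideal.comap_isPrime ι P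
  have hpq : (p : 𝓞 k) ∈ q := by
    show ι (p : 𝓞 k) ∈ P
    rw [map_natCast]
    exact hP.2
  have hp0 : (p : 𝓞 k) ≠ 0 := by
    exact_mod_cast hp.ne_zero
  obtain ⟨a, b, hb, hab⟩ := IsFractionRing.div_surjective (A := 𝓞 k) x'
  have hb0 : b ≠ 0 := nonZeroDivisors.ne_zero hb
  have ha0 : a ≠ 0 := by
    rintro rfl
    rw [map_zero, zero_div] at hab
    exact hx' hab.symm
  obtain ⟨e, i, j, r, s, he, hr, hs, heq⟩ := dedekind hp0 hpq ha0 hb0
  refine ⟨e, (i : ℤ) - j, ι s, ι r, he, hs, hr, ?_⟩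
  have h1 := congrArg (fun z => algebraMap k Qb (algebraMap (𝓞 k) k z)) heq
  simp only [map_mul, map_pow, map_natCast] at h1
  have hxa : x * algebraMap k Qb (algebraMap (𝓞 k) k b) =
      algebraMap k Qb (algebraMap (𝓞 k) k a) := by
    have h2 : x' * algebraMap (𝓞 k) k b = algebraMap (𝓞 k) k a := by
      rw [← hab]
      have h3 : algebraMap (𝓞 k) k b ≠ 0 := by
        intro h
        exact hb0 ((IsFractionRing.injective (𝓞 k) k) (by rw [h, map_zero]))
      field_simp
    rw [← h2, map_mul]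
    rfl
  have hbQ : algebraMap k Qb (algebraMap (𝓞 k) k b) ≠ 0 := by
    intro h
    have h3 : algebraMap (𝓞 k) k b = 0 := (algebraMap k Qb).injective (by rw [h, map_zero])
    exact hb0 ((IsFractionRing.injective (𝓞 k) k) (by rw [h3, map_zero]))
  have hpQ : (p : Qb) ≠ 0 := by exact_mod_cast hp.ne_zero
  rw [hι, hι, zpow_sub₀ hpQ, zpow_natCast, zpow_natCast]
  rw [← hxa] at h1
  have hbe : (algebraMap k Qb (algebraMap (𝓞 k) k b)) ^ e ≠ 0 := pow_ne_zero _ hbQ
  have hpj : (p : Qb) ^ j ≠ 0 := pow_ne_zero _ hpQ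
  rw [div_mul_eq_mul_div, eq_div_iff hpj]
  apply mul_left_cancel₀ hbe
  rw [mul_pow] at h1
  linear_combination h1

end Pool.Agent.Y708.CD
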